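import Mathlib

/-!
Definitions for the statement.  The Hilbert space `ℓ²(ℤ²; ℂ^m)` is presented as a complex Hilbert
space `H` with an orthonormal basis `b (x, i)`, `x ∈ ℤ²`, `i ∈ Fin m` (the vector `δ_x ⊗ e_i`).
The plane `ℝ²` is identified with `ℂ`.
-/

noncomputable section

namespace Pool.Agent.MP_120ee9_mp

open MeasureTheory
open scoped BoundedContinuousFunction

variable {H : Type*} [NormedAddCommGroup H] [InnerProductSpace ℂ H] [CompleteSpace H]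

/-- The Fermi projection `χ_{(-∞, E)}(A)`, by the continuous functional calculus (the indicator
function is continuous on the spectrum when `E` is not in the spectrum). -/
def fermi (A : H →L[ℂ] H) (E : ℝ) : H →L[ℂ] H :=
  cfc (fun t : ℝ => if t < E then (1 : ℝ) else 0) A

/-- `ℚ W = Q W Q + (1 - Q)`. -/
def compress (Q W : H →L[ℂ] H) : H →L[ℂ] H :=
  Q * W * Q + (1 - Q)

/-- `ind₂ F = dim ker F mod 2`. -/
def ind2 (F : H →L[ℂ] H) : ZMod 2 :=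
  (Module.finrank ℂ (LinearMap.ker (F : H →ₗ[ℂ] H)) : ZMod 2)

/-- `μ` is the spectral measure of the vector `ψ` for the self-adjoint operator `A`:
a finite Borel measure with `⟪ψ, f(A) ψ⟫ = ∫ f dμ` for all bounded continuous `f`. -/
def IsSpectralMeasure (A : H →L[ℂ] H) (ψ : H) (μ : Measure ℝ) : Prop :=
  IsFiniteMeasure μ ∧
    ∀ f : ℝ →ᵇ ℝ, inner ℂ ψ (cfc (f : ℝ → ℝ) A ψ) = ((∫ t, f t ∂μ : ℝ) : ℂ)

/-- The absolutely continuous subspace: the closed span of the vectors whose spectral measure is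
absolutely continuous with respect to Lebesgue measure. -/
abbrev acSubspace (A : H →L[ℂ] H) : Submodule ℂ H :=
  (Submodule.span ℂ {ψ | ∃ μ, IsSpectralMeasure A ψ μ ∧ μ ≪ volume}).topologicalClosure

/-- The absolutely continuous spectrum: the spectrum of the part of `A` in the absolutely
continuous subspace. -/
def acSpectrum (A : H →L[ℂ] H) : Set ℝ :=
  {E | (E : ℂ) ∈ spectrum ℂ ((acSubspace A).orthogonalProjectionOnto ∘L A ∘L (acSubspace A).subtypeL)}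

/-- The lattice site `x = (x₁, x₂)` as the point `x₁ + i x₂` of the plane. -/
def pt (x : ℤ × ℤ) : ℂ := (x.1 : ℂ) + (x.2 : ℂ) * Complex.I

/-- The parabolic region `{M y : y₁ ≥ 0, |y₂| ≤ y₁ ^ α}` with `M y = c + e^{iθ} y`. -/
def parabolic (α : ℝ) (c : ℂ) (θ : ℝ) : Set ℂ :=
  {z | ∃ y : ℂ, 0 ≤ y.re ∧ |y.im| ≤ y.re ^ α ∧ z = c + Complex.exp (θ * Complex.I) * y}

/-- `S` contains a parabolic region. -/
def ContainsParabolic (S : Set ℂ) : Prop :=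
  ∃ α : ℝ, 0 < α ∧ ∃ (c : ℂ) (θ : ℝ), parabolic α c θ ⊆ S

variable {m : ℕ}

/-- The orthogonal projection onto the `m`-dimensional space of the site `x`. -/
def site (b : HilbertBasis ((ℤ × ℤ) × Fin m) ℂ H) (x : ℤ × ℤ) : H →L[ℂ] H :=
  ∑ i : Fin m, InnerProductSpace.rankOne ℂ (b (x, i)) (b (x, i))

/-- `‖A_{xy}‖`, the operator norm of the `m × m` block of `A` at the sites `x, y`. -/
def blockNorm (b : HilbertBasis ((ℤ × ℤ) × Fin m) ℂ H) (A : H →L[ℂ] H) (x y : ℤ × ℤ) : ℝ :=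
  ‖site b x * A * site b y‖

/-- `T` is the operator of multiplication by the function `h` of the position. -/
structure IsMul (b : HilbertBasis ((ℤ × ℤ) × Fin m) ℂ H) (h : ℂ → ℂ) (T : H →L[ℂ] H) : Prop where
  apply_basis : ∀ x i, T (b (x, i)) = h (pt x) • b (x, i)

/-- A local Hamiltonian: bounded, self-adjoint, with exponentially decaying blocks. -/
structure Local (b : HilbertBasis ((ℤ × ℤ) × Fin m) ℂ H) (A : H →L[ℂ] H) : Prop where
  selfAdjoint : IsSelfAdjoint A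
  decay : ∃ ν : ℝ, 0 < ν ∧ ∀ x y, blockNorm b A x y ≤ ν⁻¹ * Real.exp (-ν * ‖pt x - pt y‖)

/-- The antiunitary `Θ` squares to `-1` and commutes with the (unbounded) position operators
`X₁, X₂`, that is `Θ X_j ⊆ X_j Θ`: if `φ = X_j ψ` then `Θ φ = X_j Θ ψ`. -/
structure TimeReversal (b : HilbertBasis ((ℤ × ℤ) × Fin m) ℂ H) (Θ : H ≃ₗᵢ⋆[ℂ] H) : Prop where
  sq : ∀ ψ, Θ (Θ ψ) = -ψ
  comm₁ : ∀ ψ φ : H, (∀ x i, inner ℂ (b (x, i)) φ = (x.1 : ℂ) * inner ℂ (b (x, i)) ψ) →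
    ∀ x i, inner ℂ (b (x, i)) (Θ φ) = (x.1 : ℂ) * inner ℂ (b (x, i)) (Θ ψ)
  comm₂ : ∀ ψ φ : H, (∀ x i, inner ℂ (b (x, i)) φ = (x.2 : ℂ) * inner ℂ (b (x, i)) ψ) →
    ∀ x i, inner ℂ (b (x, i)) (Θ φ) = (x.2 : ℂ) * inner ℂ (b (x, i)) (Θ ψ)

/-- Time-reversal symmetry `[A, Θ] = 0`. -/
def IsTRS (Θ : H ≃ₗᵢ⋆[ℂ] H) (A : H →L[ℂ] H) : Prop :=
  ∀ ψ, A (Θ ψ) = Θ (A ψ)

/-- `A` is an interface Hamiltonian compatible with `Hp`, `Hm` and `Ω`; here `Λ = Λ_Ω` and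
`Λ' = Λ_{Ωᶜ}`. -/
structure Interface (b : HilbertBasis ((ℤ × ℤ) × Fin m) ℂ H) (Hp Hm : H →L[ℂ] H) (Ω : Set ℂ)
    (A : H →L[ℂ] H) : Prop where
  isLocal : Local b A
  bound : ∃ Λ Λ' : H →L[ℂ] H, IsMul b (Ω.indicator 1) Λ ∧ IsMul b (Ωᶜ.indicator 1) Λ' ∧
    ∃ ν : ℝ, 0 < ν ∧ ∀ x y, blockNorm b (A - Λ * Hp * Λ - Λ' * Hm * Λ') x y ≤
      ν⁻¹ * Real.exp (-ν * Metric.infDist (pt x) (frontier Ω))

end Pool.Agent.MP_120ee9_mp
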